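import Mathlib

set_option autoImplicit false
set_option linter.unusedSimpArgs false

/-! Idempotents with a commuting central part. -/

namespace Pool.Agent.X267.CC

/-- Two idempotents are equivalent. Here `E = c Z + (1 - c) (1 - Z) + W` where `W` exchanges `c` and
`1 - c` and `W ^ 2 = Z - Z ^ 2`, and `φ`, `p`, `q` are functions of `Z`. -/
theorem mvn {T : Type*} [Ring T] (c Z W φ p q : T) (hcc : c * c = c) (hWc : W * c = W - c * W)
    (hWW : W * W = Z - Z * Z) (hZc : Z * c = c * Z) (hφc : φ * c = c * φ) (hpc : p * c = c * p)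
    (hqc : q * c = c * q) (hWZ : W * Z = Z * W) (hWφ : W * φ = φ * W) (hWp : W * p = p * W)
    (hWq : W * q = q * W) (hφZ : φ * Z = Z * φ) (hpZ : p * Z = Z * p) (hqZ : q * Z = Z * q)
    (h1 : φ * φ = φ) (h2 : Z * p = p - 1 + φ) (h3 : Z * q = φ) (h4 : φ * p = 0)
    (h5 : φ * q = q) (h6 : p * φ = 0) (h7 : q * φ = q) :
    ∃ A B : T, A * B = c * Z + (1 - c) * (1 - Z) + W ∧ B * A = c * φ + (1 - c) * (1 - φ) := by
  have h8 : p * q = 0 := by rw [← h5, ← mul_assoc, h6, zero_mul]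
  have h9 : q * p = 0 := by rw [← h7, mul_assoc, h4, mul_zero]
  have as : ∀ {a b d : T}, a * b = d → ∀ x, a * (b * x) = d * x := fun h x => by
    rw [← mul_assoc, h]
  have hqZ' : q * Z = φ := by rw [hqZ, h3]
  have hpZ' : p * Z = p - 1 + φ := by rw [hpZ, h2]
  set E := c * Z + (1 - c) * (1 - Z) + W with hE
  set D := c * φ + (1 - c) * (1 - φ) with hD
  set B := D + (c * q + (1 - c) * p) * W with hB
  have i1 : D * B = B := by
    rw [hB, hD]
    simp only [mul_add, add_mul, mul_sub, sub_mul, one_mul, mul_one, mul_assoc, hcc, as hcc, hWc,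
      as hWc, hWW, as hWW, hZc, as hZc, hφc, as hφc, hpc, as hpc, hqc, as hqc, hWZ, as hWZ, hWφ,
      as hWφ, hWp, as hWp, hWq, as hWq, hφZ, as hφZ, hpZ', as hpZ', hqZ', as hqZ', h1, as h1,
      h2, as h2, h3, as h3, h4, as h4, h5, as h5, h6, as h6, h7, as h7, h8, as h8, h9, as h9,
      zero_mul, mul_zero]
    abel
  have i2 : B * D = D := by
    rw [hB, hD]
    simp only [mul_add, add_mul, mul_sub, sub_mul, one_mul, mul_one, mul_assoc, hcc, as hcc, hWc,
      as hWc, hWW, as hWW, hZc, as hZc, hφc, as hφc, hpc, as hpc, hqc, as hqc, hWZ, as hWZ, hWφ,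
      as hWφ, hWp, as hWp, hWq, as hWq, hφZ, as hφZ, hpZ', as hpZ', hqZ', as hqZ', h1, as h1,
      h2, as h2, h3, as h3, h4, as h4, h5, as h5, h6, as h6, h7, as h7, h8, as h8, h9, as h9,
      zero_mul, mul_zero]
    abel
  have i3 : B * E = B := by
    rw [hB, hD, hE]
    simp only [mul_add, add_mul, mul_sub, sub_mul, one_mul, mul_one, mul_assoc, hcc, as hcc, hWc,
      as hWc, hWW, as hWW, hZc, as hZc, hφc, as hφc, hpc, as hpc, hqc, as hqc, hWZ, as hWZ, hWφ,
      as hWφ, hWp, as hWp, hWq, as hWq, hφZ, as hφZ, hpZ', as hpZ', hqZ', as hqZ', h1, as h1,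
      h2, as h2, h3, as h3, h4, as h4, h5, as h5, h6, as h6, h7, as h7, h8, as h8, h9, as h9,
      zero_mul, mul_zero]
    abel
  have i4 : E * B = E := by
    rw [hB, hD, hE]
    simp only [mul_add, add_mul, mul_sub, sub_mul, one_mul, mul_one, mul_assoc, hcc, as hcc, hWc,
      as hWc, hWW, as hWW, hZc, as hZc, hφc, as hφc, hpc, as hpc, hqc, as hqc, hWZ, as hWZ, hWφ,
      as hWφ, hWp, as hWp, hWq, as hWq, hφZ, as hφZ, hpZ', as hpZ', hqZ', as hqZ', h1, as h1,
      h2, as h2, h3, as h3, h4, as h4, h5, as h5, h6, as h6, h7, as h7, h8, as h8, h9, as h9,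
      zero_mul, mul_zero]
    abel
  refine ⟨E * D, B, ?_, ?_⟩
  · rw [mul_assoc, i1, i4]
  · rw [← mul_assoc, i3, i2]

end Pool.Agent.X267.CC
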