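import Mathlib
import Pool.Agent.X267.CC.Mvn

set_option autoImplicit false
set_option linter.unusedSectionVars false

/-! Idempotent block matrices with a constant block. -/

namespace Pool.Agent.X267.CC

open Matrix Polynomial

section
variable {R : Type*} [CommRing R] {S : Type*} [Ring S] [Algebra R S]
  {κ ω : Type*} [Fintype κ] [DecidableEq κ] [Fintype ω] [DecidableEq ω]

theorem fb_sub {l m : Type*} (A A' : Matrix κ l S) (B B' : Matrix κ m S) (C C' : Matrix ω l S)
    (D D' : Matrix ω m S) : fromBlocks A B C D - fromBlocks A' B' C' D' =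
      fromBlocks (A - A') (B - B') (C - C') (D - D') := by
  ext i j
  rcases i with i | i <;> rcases j with j | j <;> rfl

theorem commute_aeval {T : Type*} [Ring T] [Algebra R T] {y Z : T} (h : y * Z = Z * y)
    (g : R[X]) : y * aeval Z g = aeval Z g * y := by
  induction g using Polynomial.induction_on' with
  | add a b ha hb => rw [map_add, mul_add, add_mul, ha, hb]
  | monomial n a =>
    rw [aeval_monomial]
    have h1 : y * Z ^ n = Z ^ n * y := (Commute.pow_right (show Commute y Z from h) n)
    rw [← mul_assoc, ← Algebra.commutes, mul_assoc, h1, mul_assoc]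

theorem aeval_fromBlocks (X : Matrix κ κ S) (Y : Matrix ω ω S) (g : R[X]) :
    aeval (fromBlocks X 0 0 Y) g = fromBlocks (aeval X g) 0 0 (aeval Y g) := by
  have hpow : ∀ n : ℕ, (fromBlocks X 0 0 Y) ^ n = fromBlocks (X ^ n) 0 0 (Y ^ n) := by
    intro n
    induction n with
    | zero => rw [pow_zero, pow_zero, pow_zero, fromBlocks_one]
    | succ n ih =>
      rw [pow_succ, ih, fromBlocks_multiply]
      simp [pow_succ]
  induction g using Polynomial.induction_on' with
  | add a b ha hb => 
    rw [map_add, map_add, map_add, ha, hb, fromBlocks_add]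
    simp
  | monomial n a =>
    rw [aeval_monomial, aeval_monomial, aeval_monomial, hpow, ← Algebra.smul_def,
      ← Algebra.smul_def, ← Algebra.smul_def, fromBlocks_smul]
    simp

theorem aeval_map (N : Matrix ω ω R) (g : R[X]) :
    aeval (N.map (algebraMap R S)) g = (aeval N g).map (algebraMap R S) := by
  have h := Polynomial.aeval_algHom_apply (Algebra.ofId R S).mapMatrix N g
  exact h

/-- the block equations -/
theorem block_eqs {X : Matrix κ κ S} {U : Matrix κ ω S} {V : Matrix ω κ S} {N : Matrix ω ω S}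
    (hE : fromBlocks X U V (1 - N) * fromBlocks X U V (1 - N) = fromBlocks X U V (1 - N)) :
    U * V = X - X * X ∧ X * U = U * N ∧ V * X = N * V ∧ V * U = N - N * N := by
  rw [fromBlocks_multiply, fromBlocks_inj] at hE
  obtain ⟨h1, h2, h3, h4⟩ := hE
  refine ⟨?_, ?_, ?_, ?_⟩
  · rw [eq_sub_iff_add_eq, add_comm]; exact h1
  · rw [Matrix.mul_sub, Matrix.mul_one] at h2
    have h5 : X * U = U * N := by
      have : X * U + (U - U * N) - U = 0 := by rw [h2, sub_self]
      have h6 : X * U - U * N = 0 := by rw [← this]; abel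
      exact sub_eq_zero.1 h6
    exact h5
  · rw [Matrix.sub_mul, Matrix.one_mul] at h3
    have : V * X + (V - N * V) - V = 0 := by rw [h3, sub_self]
    have h6 : V * X - N * V = 0 := by rw [← this]; abel
    exact sub_eq_zero.1 h6
  · have h5 : (1 - N) * (1 - N) = 1 - N - (N - N * N) := by noncomm_ring
    rw [h5] at h4
    have : V * U + (1 - N - (N - N * N)) - (1 - N) = 0 := by rw [h4, sub_self]
    have h6 : V * U - (N - N * N) = 0 := by rw [← this]; abel
    exact sub_eq_zero.1 h6

/-- the commuting block diagonal matrix is annihilated by `t (1 - t) χ` -/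
theorem aeval_mu {X : Matrix κ κ S} {U : Matrix κ ω S} {V : Matrix ω κ S} {N : Matrix ω ω R}
    (hE : fromBlocks X U V (1 - N.map (algebraMap R S)) *
      fromBlocks X U V (1 - N.map (algebraMap R S)) =
        fromBlocks X U V (1 - N.map (algebraMap R S)))
    (χ : R[X]) (hχ : aeval N χ = 0) :
    aeval (fromBlocks X 0 0 (N.map (algebraMap R S)))
      (Polynomial.X * (1 - Polynomial.X) * χ) = 0 := by
  obtain ⟨h1, h2, h3, h4⟩ := block_eqs hE
  set N' := N.map (algebraMap R S) with hN'
  have hN : aeval N' χ = 0 := by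
    rw [hN', aeval_map, hχ]
    ext i j
    simp
  set W : Matrix (κ ⊕ ω) (κ ⊕ ω) S := fromBlocks 0 U V 0 with hW
  set Z : Matrix (κ ⊕ ω) (κ ⊕ ω) S := fromBlocks X 0 0 N' with hZ
  have hWW : W * W = Z - Z * Z := by
    rw [hW, hZ, fromBlocks_multiply, fromBlocks_multiply]
    simp only [Matrix.mul_zero, Matrix.zero_mul, add_zero, zero_add]
    rw [h1, h4, fb_sub, sub_zero, sub_zero]
  have hWZ : W * Z = Z * W := by
    rw [hW, hZ, fromBlocks_multiply, fromBlocks_multiply]
    simp [h2, h3]
  have hχZ : aeval Z χ = fromBlocks (aeval X χ) 0 0 0 := by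
    rw [hZ, aeval_fromBlocks, hN]
  have e1 : W * W * aeval Z χ = fromBlocks (U * V * aeval X χ) 0 0 0 := by
    rw [hχZ, hW, fromBlocks_multiply, fromBlocks_multiply]
    simp
  have e2 : W * W * aeval Z χ = fromBlocks 0 0 0 (V * aeval X χ * U) := by
    rw [mul_assoc, commute_aeval hWZ, ← mul_assoc, hχZ, hW, fromBlocks_multiply,
      fromBlocks_multiply]
    simp
  have e3 : W * W * aeval Z χ = 0 := by
    have h5 : U * V * aeval X χ = 0 := by
      have := e1.symm.trans e2
      rw [fromBlocks_inj] at this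
      exact this.1
    rw [e1, h5, fromBlocks_zero]
  rw [map_mul, map_mul, map_sub, aeval_X, map_one, mul_sub, mul_one, ← hWW]
  exact e3

theorem of_dvd {T : Type*} [Ring T] [Algebra R T] {Z : T} {μ a b : R[X]} (hμ : aeval Z μ = 0)
    (h : μ ∣ a - b) : aeval Z a = aeval Z b := by
  obtain ⟨d, hd⟩ := h
  rw [← sub_eq_zero, ← map_sub, hd, map_mul, hμ, zero_mul]

/-- an idempotent matrix with a constant block is equivalent to a block diagonal one -/
theorem block_mvn {X : Matrix κ κ S} {U : Matrix κ ω S} {V : Matrix ω κ S} {N : Matrix ω ω R}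
    (hE : fromBlocks X U V (1 - N.map (algebraMap R S)) *
      fromBlocks X U V (1 - N.map (algebraMap R S)) =
        fromBlocks X U V (1 - N.map (algebraMap R S)))
    (μ f p q : R[X]) (hμ : aeval (fromBlocks X 0 0 (N.map (algebraMap R S))) μ = 0)
    (h1 : μ ∣ f * f - f) (h2 : μ ∣ Polynomial.X * p - (p - 1 + f))
    (h3 : μ ∣ Polynomial.X * q - f) (h4 : μ ∣ f * p) (h5 : μ ∣ f * q - q) :
    ∃ A B : Matrix (κ ⊕ ω) (κ ⊕ ω) S,
      A * B = fromBlocks X U V (1 - N.map (algebraMap R S)) ∧
      B * A = fromBlocks (aeval X f) 0 0 (1 - (aeval N f).map (algebraMap R S)) := by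
  obtain ⟨g1, g2, g3, g4⟩ := block_eqs hE
  set N' := N.map (algebraMap R S) with hN'
  set W : Matrix (κ ⊕ ω) (κ ⊕ ω) S := fromBlocks 0 U V 0 with hW
  set Z : Matrix (κ ⊕ ω) (κ ⊕ ω) S := fromBlocks X 0 0 N' with hZ
  set c : Matrix (κ ⊕ ω) (κ ⊕ ω) S := fromBlocks 1 0 0 0 with hc
  have hWW : W * W = Z - Z * Z := by
    rw [hW, hZ, fromBlocks_multiply, fromBlocks_multiply]
    simp only [Matrix.mul_zero, Matrix.zero_mul, add_zero, zero_add]
    rw [g1, g4, fb_sub, sub_zero, sub_zero]
  have hWZ : W * Z = Z * W := by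
    rw [hW, hZ, fromBlocks_multiply, fromBlocks_multiply]
    simp [g2, g3]
  have hcc : c * c = c := by
    rw [hc, fromBlocks_multiply]
    simp
  have hcZ : c * Z = Z * c := by
    rw [hc, hZ, fromBlocks_multiply, fromBlocks_multiply]
    simp
  have hWc : W * c = W - c * W := by
    rw [hW, hc, fromBlocks_multiply, fromBlocks_multiply, fb_sub]
    simp
  obtain ⟨A, B, h6, h7⟩ := mvn c Z W (aeval Z f) (aeval Z p) (aeval Z q) hcc hWc hWW hcZ.symm
    (commute_aeval hcZ f).symm (commute_aeval hcZ p).symm (commute_aeval hcZ q).symm hWZ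
    (commute_aeval hWZ f) (commute_aeval hWZ p) (commute_aeval hWZ q)
    (commute_aeval rfl f).symm (commute_aeval rfl p).symm (commute_aeval rfl q).symm
    (by rw [← map_mul]; exact of_dvd hμ h1)
    (by
      have := of_dvd hμ h2
      rw [map_mul, aeval_X] at this
      rw [this, map_add, map_sub, map_one])
    (by
      have := of_dvd hμ h3
      rw [map_mul, aeval_X] at this
      exact this)
    (by
      have := of_dvd (a := f * p) (b := 0) hμ (by rw [sub_zero]; exact h4)
      rw [map_mul, map_zero] at this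
      exact this)
    (by rw [← map_mul]; exact of_dvd hμ h5)
    (by
      have := of_dvd (a := p * f) (b := 0) hμ (by rw [sub_zero, mul_comm]; exact h4)
      rw [map_mul, map_zero] at this
      exact this)
    (by rw [← map_mul, mul_comm]; exact of_dvd hμ h5)
  refine ⟨A, B, ?_, ?_⟩
  · rw [h6, hc, hZ, hW, fromBlocks_multiply]
    rw [← fromBlocks_one (l := κ) (m := ω), fb_sub, fb_sub, fromBlocks_multiply, fromBlocks_add,
      fromBlocks_add]
    simp
  · rw [h7, hc, hZ, aeval_fromBlocks, hN', aeval_map, fromBlocks_multiply]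
    rw [← fromBlocks_one (l := κ) (m := ω), fb_sub, fb_sub, fromBlocks_multiply, fromBlocks_add]
    simp

end

end Pool.Agent.X267.CC
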