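import Mathlib
import Pool.Agent.X267.CC.Block

set_option autoImplicit false
set_option linter.unusedSectionVars false

/-! The polynomials for the eigenvalue one. -/

namespace Pool.Agent.X267.CC

open Matrix Polynomial

theorem exists_fpq {K : Type*} [Field K] (μ : K[X]) (hμ : μ ≠ 0) :
    ∃ (f p q : K[X]) (b : ℕ), μ ∣ f * f - f ∧ μ ∣ X * p - (p - 1 + f) ∧ μ ∣ X * q - f ∧
      μ ∣ f * p ∧ μ ∣ f * q - q ∧ μ ∣ (X - 1) ^ b * f := by
  obtain ⟨h, hh, hnd⟩ := exists_eq_pow_rootMultiplicity_mul_and_not_dvd μ hμ (1 : K)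
  set b := rootMultiplicity (1 : K) μ with hb
  rw [map_one] at hh hnd
  have hirr : Irreducible (X - 1 : K[X]) := by
    have := irreducible_X_sub_C (1 : K)
    rwa [map_one] at this
  have hcop : IsCoprime (X - 1 : K[X]) h := hirr.coprime_iff_not_dvd.2 hnd
  have hcopb : IsCoprime ((X - 1 : K[X]) ^ b) h := hcop.pow_left
  have hcopX : IsCoprime (X : K[X]) ((X - 1) ^ b) := by
    apply IsCoprime.pow_right
    exact ⟨1, -1, by ring⟩
  obtain ⟨a, d, had⟩ := hcopb
  obtain ⟨a', d', had'⟩ := hcop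
  obtain ⟨a2, d2, had2⟩ := hcopX
  -- `f = d h`
  refine ⟨d * h, -a' * (1 - d * h), a2 * (d * h), b, ?_, ?_, ?_, ?_, ?_, ?_⟩
  · refine ⟨- a * d, ?_⟩
    rw [hh]
    linear_combination (d * h) * had
  · refine ⟨d' * a, ?_⟩
    rw [hh]
    linear_combination (-(1 - d * h)) * had' + (-(d' * h)) * had
  · refine ⟨- d2 * d, ?_⟩
    rw [hh]
    linear_combination (d * h) * had2
  · refine ⟨- a' * a * d, ?_⟩
    rw [hh]
    linear_combination (a' * d * h) * had
  · refine ⟨- a2 * a * d, ?_⟩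
    rw [hh]
    linear_combination (a2 * d * h) * had
  · refine ⟨d, ?_⟩
    rw [hh]
    ring

end Pool.Agent.X267.CC
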