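import Mathlib
import Pool.Agent.X267.CC.Block
import Pool.Agent.X267.CC.Poly

set_option autoImplicit false
set_option linter.unusedSectionVars false

/-! Idempotent matrices with a constant block over algebras over a field. -/

namespace Pool.Agent.X267.CC

open Matrix Polynomial

section
variable {K : Type*} [Field K] {S : Type*} [Ring S] [Algebra K S]
  {κ ω : Type*} [Fintype κ] [DecidableEq κ] [Fintype ω] [DecidableEq ω]

theorem mu_ne (N : Matrix ω ω K) : (Polynomial.X * (1 - Polynomial.X) * N.charpoly : K[X]) ≠ 0 := by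
  refine mul_ne_zero (mul_ne_zero Polynomial.X_ne_zero ?_) (Matrix.charpoly_monic N).ne_zero
  intro h
  have := congrArg (Polynomial.eval 0) h
  simp at this

/-- the structure of an idempotent matrix with a constant block, over a field -/
theorem field_block {X : Matrix κ κ S} {U : Matrix κ ω S} {V : Matrix ω κ S} {N : Matrix ω ω K}
    (hE : fromBlocks X U V (1 - N.map (algebraMap K S)) *
      fromBlocks X U V (1 - N.map (algebraMap K S)) =
        fromBlocks X U V (1 - N.map (algebraMap K S))) :
    ∃ (f p : K[X]) (b : ℕ) (A B : Matrix (κ ⊕ ω) (κ ⊕ ω) S),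
      aeval X f * aeval X f = aeval X f ∧ aeval N f * aeval N f = aeval N f ∧
      X * aeval X p = aeval X p - 1 + aeval X f ∧
      (X - 1) ^ b * aeval X f = 0 ∧
      A * B = fromBlocks X U V (1 - N.map (algebraMap K S)) ∧
      B * A = fromBlocks (aeval X f) 0 0 (1 - (aeval N f).map (algebraMap K S)) := by
  have hμ := aeval_mu hE N.charpoly (Matrix.aeval_self_charpoly N)
  obtain ⟨f, p, q, b, h1, h2, h3, h4, h5, h6⟩ := exists_fpq _ (mu_ne N)
  obtain ⟨A, B, hAB, hBA⟩ := block_mvn hE _ f p q hμ h1 h2 h3 h4 h5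
  have hb := hμ
  rw [aeval_fromBlocks, ← fromBlocks_zero, fromBlocks_inj] at hb
  obtain ⟨hX, -, -, -⟩ := hb
  refine ⟨f, p, b, A, B, ?_, ?_, ?_, ?_, hAB, hBA⟩
  · rw [← map_mul]; exact of_dvd hX h1
  · rw [← map_mul]
    refine of_dvd (μ := Polynomial.X * (1 - Polynomial.X) * N.charpoly) ?_ h1
    rw [map_mul, Matrix.aeval_self_charpoly, mul_zero]
  · have := of_dvd hX h2
    rw [map_mul, aeval_X] at this
    rw [this, map_add, map_sub, map_one]
  · have := of_dvd (a := (Polynomial.X - 1) ^ b * f) (b := 0) hX (by rw [sub_zero]; exact h6)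
    rw [map_mul, map_pow, map_sub, aeval_X, map_one, map_zero] at this
    exact this

/-- constant idempotent matrices are equivalent to identity matrices -/
theorem const_split (P : Matrix ω ω K) (hP : P * P = P) :
    ∃ (r : ℕ) (C : Matrix ω (Fin r) K) (D : Matrix (Fin r) ω K), C * D = P ∧ D * C = 1 := by
  classical
  let T := Matrix.toLin' P
  have hT : T ∘ₗ T = T := by
    rw [← Matrix.toLin'_mul, hP]
  let W := LinearMap.range T
  let bs := Module.finBasis K W
  let r := Module.finrank K W
  let i : (Fin r → K) →ₗ[K] (ω → K) := W.subtype ∘ₗ bs.equivFun.symm.toLinearMap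
  let j : (ω → K) →ₗ[K] (Fin r → K) := bs.equivFun.toLinearMap ∘ₗ T.rangeRestrict
  have hij : i ∘ₗ j = T := by
    apply LinearMap.ext
    intro x
    show ((bs.equivFun.symm (bs.equivFun (T.rangeRestrict x)) : W) : ω → K) = T x
    rw [LinearEquiv.symm_apply_apply]
    rfl
  have hji : j ∘ₗ i = LinearMap.id := by
    apply LinearMap.ext
    intro x
    have h1 : T.rangeRestrict (W.subtype (bs.equivFun.symm x)) = bs.equivFun.symm x := by
      apply Subtype.ext
      obtain ⟨y, hy⟩ := (bs.equivFun.symm x).2
      show T _ = _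
      rw [Submodule.subtype_apply, ← hy]
      exact LinearMap.congr_fun hT y
    show bs.equivFun (T.rangeRestrict (W.subtype (bs.equivFun.symm x))) = x
    rw [h1]
    exact bs.equivFun.apply_symm_apply x
  refine ⟨r, LinearMap.toMatrix' i, LinearMap.toMatrix' j, ?_, ?_⟩
  · rw [← LinearMap.toMatrix'_comp, hij]
    exact LinearMap.toMatrix'_toLin' P
  · rw [← LinearMap.toMatrix'_comp, hji, LinearMap.toMatrix'_id]

end

end Pool.Agent.X267.CC
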