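import Mathlib
import Pool.Agent.X267.CC.Field
import Pool.Agent.H26R2.Bass.Basic

set_option autoImplicit false
set_option linter.unusedSectionVars false

/-! Matrices over group rings with a monomial block of constant coefficients. -/

namespace Pool.Agent.X267.CC

open Matrix hiding single
open MonoidAlgebra
open Pool.Agent.H23R2.Cyc (ell ell_single ell_mul_comm ell_eq_sum tf tf_apply tf_mul_comm io tf_io)
open Pool.Agent.H26R2.Bass (ind ind_comm ell_ch)
open Pool.Agent.H26R2.IdemLI (ch ch_coeff ch_injective)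

universe u v w

section
variable {R : Type u} [CommRing R] {G : Type v} [Group G] {ι : Type w} [Fintype ι] [DecidableEq ι]

/-- conjugation to a block matrix with a constant block -/
theorem conj_block (A : Matrix ι ι (MonoidAlgebra R G)) (p : ι → Prop) [DecidablePred p]
    (g : ι → G) (c : ι → ι → R)
    (h : ∀ i j, ¬ p i → ¬ p j → A i j = single (g i * (g j)⁻¹) (c i j)) :
    ∃ (P : Matrix ι ({i // p i} ⊕ {i // ¬ p i}) (MonoidAlgebra R G))
      (Q : Matrix ({i // p i} ⊕ {i // ¬ p i}) ι (MonoidAlgebra R G))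
      (X : Matrix {i // p i} {i // p i} (MonoidAlgebra R G))
      (U : Matrix {i // p i} {i // ¬ p i} (MonoidAlgebra R G))
      (V : Matrix {i // ¬ p i} {i // p i} (MonoidAlgebra R G))
      (N : Matrix {i // ¬ p i} {i // ¬ p i} R),
      P * Q = 1 ∧ Q * P = 1 ∧
      Q * A * P = fromBlocks X U V (1 - N.map (algebraMap R (MonoidAlgebra R G))) ∧
      ∀ i j, X i j = single (g i)⁻¹ 1 * A i j * single (g j) 1 := by
  classical
  let e : {i // p i} ⊕ {i // ¬ p i} ≃ ι := Equiv.sumCompl p
  let D : Matrix ι ι (MonoidAlgebra R G) := Matrix.diagonal fun i => single (g i) 1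
  let D' : Matrix ι ι (MonoidAlgebra R G) := Matrix.diagonal fun i => single (g i)⁻¹ 1
  have hDD : D * D' = 1 := by
    rw [Matrix.diagonal_mul_diagonal, ← Matrix.diagonal_one]
    congr 1
    ext1 i
    rw [single_mul_single, mul_inv_cancel, one_mul, one_def]
  have hD'D : D' * D = 1 := by
    rw [Matrix.diagonal_mul_diagonal, ← Matrix.diagonal_one]
    congr 1
    ext1 i
    rw [single_mul_single, inv_mul_cancel, one_mul, one_def]
  let P := D.submatrix id e
  let Q := D'.submatrix e id
  have hPQ : P * Q = 1 := by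
    rw [Matrix.submatrix_mul_equiv, hDD, Matrix.submatrix_id_id]
  have hQP : Q * P = 1 := by
    show D'.submatrix e (Equiv.refl ι) * D.submatrix (Equiv.refl ι) e = 1
    rw [Matrix.submatrix_mul_equiv, hD'D, Matrix.submatrix_one_equiv]
  let M := (D' * A * D).submatrix e e
  have hM : Q * A * P = M := by
    have h1 : A = A.submatrix (Equiv.refl ι) (Equiv.refl ι) := rfl
    show D'.submatrix e (Equiv.refl ι) * A * D.submatrix (Equiv.refl ι) e = M
    conv_lhs => rw [h1]
    rw [Matrix.submatrix_mul_equiv, Matrix.submatrix_mul_equiv]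
  have hMe : ∀ a b, M a b = single (g (e a))⁻¹ 1 * A (e a) (e b) * single (g (e b)) 1 := by
    intro a b
    show (D' * A * D) (e a) (e b) = _
    rw [Matrix.mul_diagonal, Matrix.diagonal_mul]
  let N : Matrix {i // ¬ p i} {i // ¬ p i} R := Matrix.of fun i j =>
    (1 : Matrix {i // ¬ p i} {i // ¬ p i} R) i j - c i j
  refine ⟨P, Q, M.toBlocks₁₁, M.toBlocks₁₂, M.toBlocks₂₁, N, hPQ, hQP, ?_, ?_⟩
  · rw [hM]
    have h22 : M.toBlocks₂₂ = 1 - N.map (algebraMap R (MonoidAlgebra R G)) := by
      ext1 i j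
      show M (Sum.inr i) (Sum.inr j) = (1 : Matrix _ _ (MonoidAlgebra R G)) i j -
        algebraMap R (MonoidAlgebra R G) ((1 : Matrix _ _ R) i j - c i j)
      rw [hMe]
      have he : ∀ x : {i // ¬ p i}, e (Sum.inr x) = x := fun x => rfl
      rw [he, he, h i j i.2 j.2, single_mul_single, single_mul_single, map_sub, one_mul, mul_one]
      have h3 : (g i)⁻¹ * (g i * (g j)⁻¹) * g j = 1 := by group
      rw [h3]
      have h4 : (1 : Matrix {i // ¬ p i} {i // ¬ p i} (MonoidAlgebra R G)) i j =
          algebraMap R (MonoidAlgebra R G) ((1 : Matrix _ _ R) i j) := by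
        rw [Matrix.one_apply, Matrix.one_apply]
        split_ifs
        · exact (map_one _).symm
        · exact (map_zero _).symm
      rw [h4, sub_sub_cancel]
      simp
    rw [← h22, Matrix.fromBlocks_toBlocks]
  · intro i j
    exact hMe (Sum.inl i) (Sum.inl j)

theorem tf_comm_rect {ω : Type*} [Fintype ω] [DecidableEq ω] (f : G → R)
    (hf : ∀ x y, f (x * y) = f (y * x)) (X : Matrix ι ω (MonoidAlgebra R G))
    (Y : Matrix ω ι (MonoidAlgebra R G)) : tf f (X * Y) = tf f (Y * X) := by
  rw [tf_apply, tf_apply]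
  simp only [Matrix.mul_apply, map_sum]
  rw [Finset.sum_comm]
  exact Finset.sum_congr rfl fun i _ => Finset.sum_congr rfl fun j _ => ell_mul_comm f hf _ _

theorem tf_fb {κ ω : Type*} [Fintype κ] [DecidableEq κ] [Fintype ω] [DecidableEq ω] (f : G → R)
    (A : Matrix κ κ (MonoidAlgebra R G)) (B : Matrix κ ω (MonoidAlgebra R G))
    (C : Matrix ω κ (MonoidAlgebra R G)) (D : Matrix ω ω (MonoidAlgebra R G)) :
    tf f (fromBlocks A B C D) = tf f A + tf f D := by
  rw [tf_apply, tf_apply, tf_apply, Fintype.sum_sum_type]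
  rfl

end

section
variable {K : Type u} [Field K] {G : Type v} [Group G] {κ ω : Type w}
  [Fintype κ] [DecidableEq κ] [Fintype ω] [DecidableEq ω]

theorem tf_const (P : Matrix ω ω K) (hP : P * P = P) : ∃ m : ℕ, ∀ f : G → K,
    tf f (P.map (algebraMap K (MonoidAlgebra K G))) = m * f 1 := by
  obtain ⟨r, C, D, h1, h2⟩ := const_split P hP
  refine ⟨r, fun f => ?_⟩
  have h3 : P.map (algebraMap K (MonoidAlgebra K G)) = io P (1 : G) := by
    ext1 i j
    simp [io]
  rw [h3, tf_io]
  congr 1
  rw [← h1, Matrix.trace_mul_comm, h2, Matrix.trace_one]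
  simp

/-- the traces of an idempotent matrix with a constant block -/
theorem trace_field {X : Matrix κ κ (MonoidAlgebra K G)} {U : Matrix κ ω (MonoidAlgebra K G)}
    {V : Matrix ω κ (MonoidAlgebra K G)} {N : Matrix ω ω K}
    (hE : fromBlocks X U V (1 - N.map (algebraMap K (MonoidAlgebra K G))) *
      fromBlocks X U V (1 - N.map (algebraMap K (MonoidAlgebra K G))) =
        fromBlocks X U V (1 - N.map (algebraMap K (MonoidAlgebra K G)))) :
    ∃ (e : Matrix κ κ (MonoidAlgebra K G)) (m : ℕ), e * e = e ∧ ∀ f : G → K,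
      (∀ x y, f (x * y) = f (y * x)) →
      tf f (fromBlocks X U V (1 - N.map (algebraMap K (MonoidAlgebra K G)))) =
        tf f e + m * f 1 := by
  obtain ⟨f, p, b, A, B, h1, h2, h3, h4, hAB, hBA⟩ := field_block hE
  have h5 : (1 - Polynomial.aeval N f) * (1 - Polynomial.aeval N f) =
      1 - Polynomial.aeval N f := by
    have h6 : (1 - Polynomial.aeval N f) * (1 - Polynomial.aeval N f) =
      1 - Polynomial.aeval N f - (Polynomial.aeval N f -
        Polynomial.aeval N f * Polynomial.aeval N f) := by noncomm_ring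
    rw [h6, h2, sub_self, sub_zero]
  obtain ⟨m, hm⟩ := tf_const (G := G) (1 - Polynomial.aeval N f) h5
  refine ⟨Polynomial.aeval X f, m, h1, fun u hu => ?_⟩
  rw [← hAB, tf_comm_rect u hu, hBA, tf_fb]
  congr 1
  rw [← hm u]
  congr 1
  ext1 i j
  rw [Matrix.sub_apply, Matrix.map_apply, Matrix.map_apply, Matrix.sub_apply, map_sub]
  congr 1
  rw [Matrix.one_apply, Matrix.one_apply]
  split_ifs
  · exact (map_one _).symm
  · exact (map_zero _).symm

end

section
variable {R : Type u} [CommRing R] [IsDomain R] {G : Type v} [Group G] {ι : Type w} [Fintype ι]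
  [DecidableEq ι]

theorem trace_general (A : Matrix ι ι (MonoidAlgebra R G)) (hA : A * A = A) (p : ι → Prop)
    [DecidablePred p] (g : ι → G) (c : ι → ι → R)
    (h : ∀ i j, ¬ p i → ¬ p j → A i j = single (g i * (g j)⁻¹) (c i j)) :
    ∃ (e : Matrix {i // p i} {i // p i} (MonoidAlgebra (FractionRing R) G)) (m : ℕ), e * e = e ∧
      ∀ x : G, algebraMap R (FractionRing R) (tf (ind R x) A) =
        tf (ind (FractionRing R) x) e + m * ind (FractionRing R) x 1 := by
  classical
  let K := FractionRing R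
  let θ : R →+* K := algebraMap R K
  let A' : Matrix ι ι (MonoidAlgebra K G) := A.map (ch θ G)
  have hA' : A' * A' = A' := by
    rw [← Matrix.map_mul, hA]
  have h' : ∀ i j, ¬ p i → ¬ p j → A' i j = single (g i * (g j)⁻¹) (θ (c i j)) := by
    intro i j hi hj
    show ch θ G (A i j) = _
    rw [h i j hi hj]
    ext y
    rw [ch_coeff, coeff_single, coeff_single, Finsupp.single_apply, Finsupp.single_apply]
    split_ifs
    · rfl
    · exact map_zero _
  obtain ⟨P, Q, X, U, V, N, hPQ, hQP, hB, hX⟩ := conj_block A' p g (fun i j => θ (c i j)) h'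
  have hE : fromBlocks X U V (1 - N.map (algebraMap K (MonoidAlgebra K G))) *
      fromBlocks X U V (1 - N.map (algebraMap K (MonoidAlgebra K G))) =
        fromBlocks X U V (1 - N.map (algebraMap K (MonoidAlgebra K G))) := by
    rw [← hB]
    calc Q * A' * P * (Q * A' * P) = Q * A' * (P * Q) * (A' * P) := by
          simp only [Matrix.mul_assoc]
      _ = Q * (A' * A') * P := by rw [hPQ]; simp only [Matrix.mul_assoc, Matrix.mul_one]
      _ = Q * A' * P := by rw [hA']
  obtain ⟨e, m, he, hm⟩ := trace_field hE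
  refine ⟨e, m, he, fun x => ?_⟩
  rw [← hm _ (ind_comm x), ← hB, tf_comm_rect _ (ind_comm x), ← Matrix.mul_assoc, hPQ,
    Matrix.one_mul, tf_apply, tf_apply, map_sum]
  exact Finset.sum_congr rfl (fun i _ => (ell_ch θ x (A i i)).symm)

end

end Pool.Agent.X267.CC
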