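import Mathlib
import Pool.Agent.X267.CC.Conj
import Pool.Agent.Y75.Dn.RatK

set_option autoImplicit false
set_option linter.unusedSectionVars false

/-! Traces of idempotent matrices with a monomial block of constant coefficients. -/

namespace Pool.Agent.X267.CC

open Matrix hiding single
open MonoidAlgebra
open Pool.Agent.H23R2.Cyc (ell ell_single ell_mul_comm ell_eq_sum tf tf_apply tf_mul_comm io tf_io)
open Pool.Agent.H26R2.Bass (ind ind_comm ell_ch)
open Pool.Agent.H26R2.IdemLI (ch ch_coeff ch_injective)

universe u v w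

theorem idem_int {K : Type u} [Field K] [CharZero K] {G : Type v} [Group G]
    (e : MonoidAlgebra K G) (he : e * e = e) (z : ℤ) (hz : e.coeff 1 = z) : e = 0 ∨ e = 1 := by
  have he1 : (1 - e) * (1 - e) = 1 - e := by
    have : (1 - e) * (1 - e) = 1 - e - (e - e * e) := by noncomm_ring
    rw [this, he, sub_self, sub_zero]
  have h1c : (1 - e).coeff 1 = 1 - e.coeff 1 := by
    rw [MonoidAlgebra.coeff_sub, Finsupp.sub_apply]
    congr 1
    rw [MonoidAlgebra.one_def, MonoidAlgebra.coeff_single, Finsupp.single_eq_same]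
  have h1 := Pool.Agent.Y75.Dn.coeff_one_nonneg e he (z : ℚ) (by rw [hz]; push_cast; rfl)
  have h2 := Pool.Agent.Y75.Dn.coeff_one_nonneg (1 - e) he1 ((1 - z : ℤ) : ℚ)
    (by rw [h1c, hz]; push_cast; rfl)
  have h3 : 0 ≤ z := by exact_mod_cast h1
  have h4 : 0 ≤ 1 - z := by exact_mod_cast h2
  have kap : ∀ x : MonoidAlgebra K G, x * x = x → x.coeff 1 = 0 → x = 0 := by
    intro x hx h0
    have := Pool.Agent.H26R2.IdemLI.kaplansky (n := 1) (Matrix.of fun _ _ => x)
      (by
        ext1 i j
        rw [Matrix.mul_apply]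
        simp [hx])
      (by simpa using h0)
    exact congrFun (congrFun this 0) 0
  rcases (show z = 0 ∨ z = 1 by omega) with h5 | h5
  · left
    apply kap e he
    rw [hz, h5, Int.cast_zero]
  · right
    have := kap (1 - e) he1 (by rw [h1c, hz, h5, Int.cast_one, sub_self])
    exact (sub_eq_zero.1 this).symm

theorem int_of_rat {R : Type u} [CommRing R] [IsDomain R] [CharZero R]
    (hR : ∀ p : ℕ, p.Prime → ¬ IsUnit (p : R)) (q : ℚ) (r : R)
    [CharZero (FractionRing R)]
    (h : (q : FractionRing R) = algebraMap R (FractionRing R) r) :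
    ∃ z : ℤ, (q : FractionRing R) = z := by
  by_cases hd : q.den = 1
  · refine ⟨q.num, ?_⟩
    have : (q : ℚ) = (q.num : ℚ) := ((Rat.den_eq_one_iff q).1 hd).symm
    rw [this]
    push_cast
    rfl
  · exfalso
    obtain ⟨p, hp, hpd⟩ := Nat.exists_prime_and_dvd hd
    apply hR p hp
    have h1 : ((q.den : R)) * r = (q.num : R) := by
      apply IsFractionRing.injective R (FractionRing R)
      rw [map_mul, ← h, map_natCast, map_intCast]
      have h2 : (q.den : ℚ) * q = q.num := by
        rw [mul_comm]; exact Rat.mul_den_eq_num q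
      have h3 := congrArg (fun x : ℚ => (x : FractionRing R)) h2
      push_cast at h3
      exact h3
    have h4 : IsCoprime (q.num : ℤ) (q.den : ℤ) := by
      rw [Int.isCoprime_iff_gcd_eq_one]
      exact q.reduced
    obtain ⟨a, b, hab⟩ := h4
    have h5 : (q.den : R) * (a * r + b) = 1 := by
      have h6 := congrArg (fun x : ℤ => (x : R)) hab
      push_cast at h6
      rw [← h6, ← h1]
      ring
    have h7 : IsUnit (q.den : R) := IsUnit.of_mul_eq_one _ h5
    obtain ⟨d, hd2⟩ := hpd
    rw [hd2, Nat.cast_mul] at h7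
    exact isUnit_of_mul_isUnit_left h7

end Pool.Agent.X267.CC
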