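import Mathlib
import Pool.Agent.X267.CC.Modl

set_option autoImplicit false
set_option linter.unusedSectionVars false

/-! Idempotent matrices over group rings of domains with a constant block and a border of size
one. -/

namespace Pool.Agent.X267.CC

open Matrix Polynomial
open Pool.Agent.H23R2.Cyc (ell ell_single ell_mul_comm ell_eq_sum tf tf_apply tf_mul_comm io tf_io)
open Pool.Agent.H26R2.Bass (ind ind_comm ell_ch)
open Pool.Agent.H26R2.IdemLI (ch ch_coeff ch_injective)

universe u v w

section
variable {R : Type*} [CommRing R] {S : Type*} [Ring S]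
  [Algebra R S] {κ ω : Type*} [Fintype κ] [DecidableEq κ] [Fintype ω] [DecidableEq ω]

theorem map_one_mat' {r : Type*} [Fintype r] [DecidableEq r] :
    (1 : Matrix r r R).map (algebraMap R S) = 1 := by
  ext1 i j
  rw [Matrix.map_apply, Matrix.one_apply, Matrix.one_apply]
  split_ifs
  · exact map_one _
  · exact map_zero _

/-- the case of a nilpotent border block: the idempotent is equivalent to a constant one -/
theorem nilp_const {X : Matrix κ κ S} {U : Matrix κ ω S} {V : Matrix ω κ S} {N : Matrix ω ω R}
    (hinj : Function.Injective (algebraMap R S))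
    (hE : fromBlocks X U V (1 - N.map (algebraMap R S)) *
      fromBlocks X U V (1 - N.map (algebraMap R S)) =
        fromBlocks X U V (1 - N.map (algebraMap R S))) (m : ℕ) (hX : X ^ m = 0) :
    ∃ (A B : Matrix (κ ⊕ ω) (κ ⊕ ω) S) (D : Matrix (κ ⊕ ω) (κ ⊕ ω) R), D * D = D ∧
      A * B = fromBlocks X U V (1 - N.map (algebraMap R S)) ∧ B * A = D.map (algebraMap R S) := by
  obtain ⟨h1, h2, h3, h4⟩ := block_eqs hE
  have hmapinj : Function.Injective fun M : Matrix ω ω R => M.map (algebraMap R S) := by
    intro M M' h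
    ext1 i j
    exact hinj (congrFun (congrFun h i) j)
  have hVX : ∀ m : ℕ, V * X ^ m = N.map (algebraMap R S) ^ m * V := by
    intro m
    induction m with
    | zero => simp
    | succ m ih => rw [pow_succ, ← Matrix.mul_assoc, ih, Matrix.mul_assoc, h3, pow_succ,
        Matrix.mul_assoc]
  have h5 : N.map (algebraMap R S) ^ m * (N.map (algebraMap R S) -
      N.map (algebraMap R S) * N.map (algebraMap R S)) = 0 := by
    rw [← h4, ← Matrix.mul_assoc, ← hVX, hX, Matrix.mul_zero, Matrix.zero_mul]
  have hpow : ∀ k : ℕ, (N ^ k).map (algebraMap R S) = N.map (algebraMap R S) ^ k := by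
    intro k
    have := (RingHom.mapMatrix (algebraMap R S)).map_pow N k
    exact this
  have h6 : N ^ m * (N - N * N) = 0 := by
    apply hmapinj
    show (N ^ m * (N - N * N)).map (algebraMap R S) = (0 : Matrix ω ω R).map (algebraMap R S)
    rw [Matrix.map_mul, hpow, Matrix.map_sub _ (fun a b => map_sub _ a b), Matrix.map_mul, h5]
    ext1 i j
    simp
  have h7 : N ^ (m + 1) = N ^ (m + 2) := by
    have : N ^ m * (N - N * N) = N ^ (m + 1) - N ^ (m + 2) := by
      rw [mul_sub, ← pow_succ, ← mul_assoc, ← pow_succ, ← pow_succ]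
    rw [this] at h6
    exact sub_eq_zero.1 h6
  have h8 : ∀ k, N ^ (m + 1 + k) = N ^ (m + 1) := by
    intro k
    induction k with
    | zero => rfl
    | succ k ih =>
      rw [show m + 1 + (k + 1) = (m + 1 + k) + 1 by ring, pow_succ, ih, ← pow_succ, ← h7]
  set M := m + 1 with hM
  set μ : R[X] := Polynomial.X ^ M * (1 - Polynomial.X) with hμ
  have hμX : aeval X μ = 0 := by
    rw [hμ, map_mul, map_pow, aeval_X, hM, pow_succ, hX, zero_mul, zero_mul]
  have hμN : aeval N μ = 0 := by
    rw [hμ, map_mul, map_pow, map_sub, aeval_X, map_one, mul_sub, mul_one, ← pow_succ, hM]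
    rw [show m + 1 + 1 = m + 2 by ring, ← h7, sub_self]
  have hμZ : aeval (fromBlocks X 0 0 (N.map (algebraMap R S))) μ = 0 := by
    rw [aeval_fromBlocks, hμX, aeval_map, hμN]
    have : (0 : Matrix ω ω R).map (algebraMap R S) = 0 := by
      ext1 i j
      simp
    rw [this, fromBlocks_zero]
  obtain ⟨s, hs⟩ : ∃ s : R[X], (1 - Polynomial.X) * s = 1 - Polynomial.X ^ M := by
    refine ⟨∑ i ∈ Finset.range M, Polynomial.X ^ i, ?_⟩
    exact mul_neg_geom_sum Polynomial.X M
  obtain ⟨A, B, hAB, hBA⟩ := block_mvn hE μ (Polynomial.X ^ M) (s * (1 - Polynomial.X ^ M))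
    (Polynomial.X ^ M) hμZ
    (by
      refine ⟨-s, ?_⟩
      rw [hμ]
      linear_combination (Polynomial.X ^ M) * hs)
    (by
      refine ⟨s, ?_⟩
      rw [hμ]
      linear_combination (-(1 - Polynomial.X ^ M) - Polynomial.X ^ M) * hs)
    (by
      refine ⟨-1, ?_⟩
      rw [hμ]
      ring)
    (by
      refine ⟨s * s, ?_⟩
      rw [hμ]
      linear_combination (-Polynomial.X ^ M * s) * hs)
    (by
      refine ⟨-s, ?_⟩
      rw [hμ]
      linear_combination (Polynomial.X ^ M) * hs)
  refine ⟨A, B, (fromBlocks 0 0 0 (1 - N ^ M) : Matrix (κ ⊕ ω) (κ ⊕ ω) R), ?_, hAB, ?_⟩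
  · rw [fromBlocks_multiply]
    have h9 : (1 - N ^ M) * (1 - N ^ M) = 1 - N ^ M := by
      have : ∀ Y : Matrix ω ω R, (1 - Y) * (1 - Y) = 1 - Y - (Y - Y * Y) := by
        intro Y; noncomm_ring
      rw [this, ← pow_add, h8, sub_self, sub_zero]
    simp [h9]
  · rw [hBA, map_pow, aeval_X, map_pow, aeval_X, hM, pow_succ X, hX, zero_mul]
    rw [Matrix.fromBlocks_map, Matrix.map_sub _ (fun a b => map_sub _ a b), map_one_mat']
    simp

end

section
variable {R : Type u} [CommRing R] [IsDomain R] {G : Type v} [Group G]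
  {κ ω : Type w} [Fintype κ] [DecidableEq κ] [Fintype ω] [DecidableEq ω] [Unique κ]

/-- idempotents over the fraction field whose trace differs from an element of `R` by an integer are
trivial -/
def TrivIdem (R : Type u) [CommRing R] [IsDomain R] (G : Type v) [Group G] : Prop :=
  ∀ e : MonoidAlgebra (FractionRing R) G, e * e = e →
    (∃ (r : R) (m : ℕ), algebraMap R (FractionRing R) r = e.coeff 1 + m) → e = 0 ∨ e = 1

/-- the map to the group ring over the fraction field -/
noncomputable abbrev toK (R : Type u) [CommRing R] [IsDomain R] (G : Type v) [Group G] :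
    MonoidAlgebra R G →+* MonoidAlgebra (FractionRing R) G :=
  ch (algebraMap R (FractionRing R)) G

theorem toK_inj : Function.Injective (toK R G) :=
  ch_injective _ (IsFractionRing.injective R (FractionRing R))

theorem toK_alg (r : R) : toK R G (algebraMap R (MonoidAlgebra R G) r) =
    algebraMap (FractionRing R) (MonoidAlgebra (FractionRing R) G)
      (algebraMap R (FractionRing R) r) := by
  classical
  ext g
  rw [ch_coeff, MonoidAlgebra.coe_algebraMap, MonoidAlgebra.coe_algebraMap]
  simp only [Function.comp_apply, Algebra.algebraMap_self, RingHom.id_apply]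
  rw [MonoidAlgebra.coeff_single, MonoidAlgebra.coeff_single, Finsupp.single_apply,
    Finsupp.single_apply]
  split_ifs
  · rfl
  · exact map_zero _

theorem toK_blocks (X : Matrix κ κ (MonoidAlgebra R G)) (U : Matrix κ ω (MonoidAlgebra R G))
    (V : Matrix ω κ (MonoidAlgebra R G)) (N : Matrix ω ω R) :
    (fromBlocks X U V (1 - N.map (algebraMap R (MonoidAlgebra R G)))).map (toK R G) =
      fromBlocks (X.map (toK R G)) (U.map (toK R G)) (V.map (toK R G))
        (1 - (N.map (algebraMap R (FractionRing R))).map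
          (algebraMap (FractionRing R) (MonoidAlgebra (FractionRing R) G))) := by
  rw [Matrix.fromBlocks_map]
  congr 1
  rw [Matrix.map_sub _ (fun a b => map_sub _ a b)]
  congr 1
  · ext1 i j
    rw [Matrix.map_apply, Matrix.one_apply, Matrix.one_apply]
    split_ifs
    · exact map_one _
    · exact map_zero _
  · ext1 i j
    simp only [Matrix.map_apply]
    exact toK_alg _

/-- either the border is unipotent or `1 - X` is rationally invertible -/
theorem dichD (hK : TrivIdem R G)
    {X : Matrix κ κ (MonoidAlgebra R G)} {U : Matrix κ ω (MonoidAlgebra R G)}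
    {V : Matrix ω κ (MonoidAlgebra R G)} {N : Matrix ω ω R}
    (hE : fromBlocks X U V (1 - N.map (algebraMap R (MonoidAlgebra R G))) *
      fromBlocks X U V (1 - N.map (algebraMap R (MonoidAlgebra R G))) =
        fromBlocks X U V (1 - N.map (algebraMap R (MonoidAlgebra R G)))) :
    (∃ b : ℕ, (X - 1) ^ b = 0) ∨
      ∃ p : (FractionRing R)[X], (1 - X.map (toK R G)) * aeval (X.map (toK R G)) p = 1 := by
  classical
  set E := fromBlocks X U V (1 - N.map (algebraMap R (MonoidAlgebra R G))) with hEdef
  have hEQ := toK_blocks X U V N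
  set XQ := X.map (toK R G) with hXQ
  set UQ := U.map (toK R G) with hUQ
  set VQ := V.map (toK R G) with hVQ
  set NQ := N.map (algebraMap R (FractionRing R)) with hNQ
  have hidQ : E.map (toK R G) * E.map (toK R G) = E.map (toK R G) := by
    rw [← Matrix.map_mul, hE]
  have hid' := hidQ
  rw [hEdef, hEQ] at hid'
  obtain ⟨f, p, b, A, B, h1, h2, h3, h4, hAB, hBA⟩ := field_block hid'
  set e := aeval XQ f with he
  have hu : ∀ M : Matrix κ κ (MonoidAlgebra (FractionRing R) G),
      M = Matrix.of fun _ _ => M default default := by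
    intro M
    ext1 i j
    rw [Unique.eq_default i, Unique.eq_default j]
    rfl
  have hee : e default default * e default default = e default default := by
    have h5 := congrFun (congrFun h1 default) default
    rw [Matrix.mul_apply, Fintype.sum_unique] at h5
    exact h5
  have h5 : (1 - aeval NQ f) * (1 - aeval NQ f) = 1 - aeval NQ f := by
    have : ∀ Y : Matrix ω ω (FractionRing R), (1 - Y) * (1 - Y) = 1 - Y - (Y - Y * Y) := by
      intro Y; noncomm_ring
    rw [this, h2, sub_self, sub_zero]
  obtain ⟨m, hm⟩ := tf_const (G := G) (1 - aeval NQ f) h5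
  have hmap : (1 - aeval NQ f).map
      (algebraMap (FractionRing R) (MonoidAlgebra (FractionRing R) G)) =
      1 - (aeval NQ f).map (algebraMap (FractionRing R) (MonoidAlgebra (FractionRing R) G)) := by
    rw [Matrix.map_sub _ (fun a b => map_sub _ a b), map_one_mat]
  -- the trace of `e` is in `R` up to an integer
  have htr : ∃ (r : R) (m : ℕ), algebraMap R (FractionRing R) r =
      (e default default).coeff 1 + m := by
    have h6 : tf (ind (FractionRing R) (1 : G)) (E.map (toK R G)) =
        algebraMap R (FractionRing R) (∑ i, (E i i).coeff 1) := by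
      rw [tf_apply, map_sum]
      apply Finset.sum_congr rfl
      intro i _
      rw [ell_one, Matrix.map_apply, ch_coeff]
    have h7 : tf (ind (FractionRing R) (1 : G)) (E.map (toK R G)) =
        (e default default).coeff 1 + m := by
      rw [hEdef, hEQ, ← hAB, tf_comm_rect _ (ind_comm 1), hBA, tf_fb, ← hmap, hm, tf_apply,
        Fintype.sum_unique, ell_one]
      congr 1
      have : ind (FractionRing R) (1 : G) 1 = 1 := by
        unfold ind
        rw [if_pos (IsConj.refl 1)]
      rw [this, mul_one]
    exact ⟨_, m, h6.symm.trans h7⟩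
  rcases hK _ hee htr with h0 | h0
  · have he0 : e = 0 := by
      rw [hu e, h0]
      rfl
    right
    refine ⟨p, ?_⟩
    rw [Matrix.sub_mul, Matrix.one_mul, h3, he0, add_zero, sub_sub_cancel]
  · have he1 : e = 1 := by
      rw [hu e, h0]
      ext1 i j
      rw [Unique.eq_default i, Unique.eq_default j, Matrix.one_apply_eq]
      rfl
    left
    refine ⟨b, ?_⟩
    rw [he1, Matrix.mul_one] at h4
    have h6 : ((X - 1) ^ b).map (toK R G) = 0 := by
      have h7 : ((X - 1) ^ b).map (toK R G) = ((X - 1).map (toK R G)) ^ b :=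
        (RingHom.mapMatrix (toK R G)).map_pow (X - 1) b
      rw [h7, Matrix.map_sub _ (fun a b => map_sub _ a b)]
      have h8 : (1 : Matrix κ κ (MonoidAlgebra R G)).map (toK R G) = 1 :=
        (RingHom.mapMatrix (toK R G)).map_one
      rw [h8]
      exact h4
    ext1 i j
    apply toK_inj
    have h7 := congrFun (congrFun h6 i) j
    rw [Matrix.zero_apply, map_zero]
    exact h7

theorem compl_blocks (X : Matrix κ κ (MonoidAlgebra R G)) (U : Matrix κ ω (MonoidAlgebra R G))
    (V : Matrix ω κ (MonoidAlgebra R G)) (N : Matrix ω ω R) :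
    fromBlocks (1 - X) (-U) (-V) (1 - (1 - N).map (algebraMap R (MonoidAlgebra R G))) =
      1 - fromBlocks X U V (1 - N.map (algebraMap R (MonoidAlgebra R G))) := by
  rw [← fromBlocks_one (l := κ) (m := ω), fb_sub, Matrix.map_sub _ (fun a b => map_sub _ a b),
    map_one_mat', zero_sub, zero_sub]

theorem compl_idem {S ι : Type*} [Ring S] [Fintype ι] [DecidableEq ι] {Y : Matrix ι ι S}
    (hY : Y * Y = Y) : (1 - Y) * (1 - Y) = 1 - Y := by
  have : (1 - Y) * (1 - Y) = 1 - Y - (Y - Y * Y) := by noncomm_ring
  rw [this, hY, sub_self, sub_zero]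

/-- the trichotomy -/
theorem trichD (hK : TrivIdem R G)
    {X : Matrix κ κ (MonoidAlgebra R G)} {U : Matrix κ ω (MonoidAlgebra R G)}
    {V : Matrix ω κ (MonoidAlgebra R G)} {N : Matrix ω ω R}
    (hE : fromBlocks X U V (1 - N.map (algebraMap R (MonoidAlgebra R G))) *
      fromBlocks X U V (1 - N.map (algebraMap R (MonoidAlgebra R G))) =
        fromBlocks X U V (1 - N.map (algebraMap R (MonoidAlgebra R G)))) :
    (∃ b : ℕ, X ^ b = 0) ∨ (∃ b : ℕ, (1 - X) ^ b = 0) ∨
      ∃ z : R, z ≠ 0 ∧ z ≠ 1 ∧ X default default = MonoidAlgebra.single 1 z := by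
  classical
  have hE' : fromBlocks (1 - X) (-U) (-V)
      (1 - (1 - N).map (algebraMap R (MonoidAlgebra R G))) *
      fromBlocks (1 - X) (-U) (-V) (1 - (1 - N).map (algebraMap R (MonoidAlgebra R G))) =
      fromBlocks (1 - X) (-U) (-V) (1 - (1 - N).map (algebraMap R (MonoidAlgebra R G))) := by
    rw [compl_blocks]
    exact compl_idem hE
  have hneg : ∀ (Y : Matrix κ κ (MonoidAlgebra R G)) (b : ℕ), (-Y) ^ b = 0 → Y ^ b = 0 := by
    intro Y b h
    have h1 : Y ^ b = (-1) ^ b * (-Y) ^ b := by rw [← neg_pow, neg_neg]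
    rw [h1, h, mul_zero]
  rcases dichD hK hE with ⟨b, hb⟩ | ⟨p₁, hp₁⟩
  · right; left
    refine ⟨b, hneg _ b ?_⟩
    rw [neg_sub]
    exact hb
  rcases dichD hK hE' with ⟨b, hb⟩ | ⟨p₂, hp₂⟩
  · left
    refine ⟨b, hneg _ b ?_⟩
    rw [show (1 : Matrix κ κ (MonoidAlgebra R G)) - X - 1 = -X by abel] at hb
    exact hb
  right; right
  set XQ := X.map (toK R G) with hXQ
  have h8 : (1 : Matrix κ κ (MonoidAlgebra R G)).map (toK R G) = 1 :=
    (RingHom.mapMatrix (toK R G)).map_one
  rw [Matrix.map_sub _ (fun a b => map_sub _ a b), h8, ← hXQ, sub_sub_cancel] at hp₂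
  have hcomp : aeval (1 - XQ) p₂ = aeval XQ (p₂.comp (1 - Polynomial.X)) := by
    rw [aeval_comp, map_sub, map_one, aeval_X]
  rw [hcomp] at hp₂
  have hg : (XQ - XQ * XQ) * aeval XQ (p₁ * p₂.comp (1 - Polynomial.X)) = 1 := by
    have h1 : XQ - XQ * XQ = XQ * (1 - XQ) := by rw [mul_sub, mul_one]
    rw [h1, map_mul, mul_assoc, ← mul_assoc (1 - XQ), hp₁, one_mul, hp₂]
  have hidQ : (fromBlocks X U V (1 - N.map (algebraMap R (MonoidAlgebra R G)))).map (toK R G) *
      (fromBlocks X U V (1 - N.map (algebraMap R (MonoidAlgebra R G)))).map (toK R G) =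
      (fromBlocks X U V (1 - N.map (algebraMap R (MonoidAlgebra R G)))).map (toK R G) := by
    rw [← Matrix.map_mul, hE]
  rw [toK_blocks] at hidQ
  obtain ⟨q, hq⟩ := border_const (MonoidAlgebra.lift (FractionRing R) (FractionRing R) G 1)
    hidQ _ hg
  have hxq : toK R G (X default default) = MonoidAlgebra.single 1 q := by
    have h1 := congrFun (congrFun hq default) default
    rw [Matrix.smul_apply, Matrix.one_apply_eq] at h1
    rw [MonoidAlgebra.one_def, MonoidAlgebra.smul_single, smul_eq_mul, mul_one] at h1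
    exact h1
  have hc : ∀ g : G, algebraMap R (FractionRing R) ((X default default).coeff g) =
      if g = 1 then q else 0 := by
    intro g
    have h1 : (toK R G (X default default)).coeff g =
        algebraMap R (FractionRing R) ((X default default).coeff g) := ch_coeff _ _ _
    rw [← h1, hxq, MonoidAlgebra.coeff_single, Finsupp.single_apply]
    by_cases hh : g = 1
    · rw [if_pos hh.symm, if_pos hh]
    · rw [if_neg (fun h => hh h.symm), if_neg hh]
  have hqz : algebraMap R (FractionRing R) ((X default default).coeff 1) = q := by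
    rw [hc, if_pos rfl]
  have hnt : (1 : Matrix κ κ (MonoidAlgebra (FractionRing R) G)) ≠ 0 := by
    intro h
    have h1 := congrFun (congrFun h default) default
    rw [Matrix.one_apply_eq, Matrix.zero_apply] at h1
    exact one_ne_zero h1
  refine ⟨(X default default).coeff 1, ?_, ?_, ?_⟩
  · intro h
    rw [h, map_zero] at hqz
    rw [← hXQ] at hq
    rw [hq, ← hqz, zero_smul, Matrix.zero_mul] at hp₂
    exact hnt hp₂.symm
  · intro h
    rw [h, map_one] at hqz
    rw [← hXQ] at hq
    rw [hq, ← hqz, one_smul, sub_self, Matrix.zero_mul] at hp₁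
    exact hnt hp₁.symm
  · ext g
    rw [MonoidAlgebra.coeff_single, Finsupp.single_apply]
    by_cases hh : 1 = g
    · rw [if_pos hh, hh]
    · rw [if_neg hh]
      have h1 := hc g
      rw [if_neg (fun h => hh h.symm)] at h1
      apply IsFractionRing.injective R (FractionRing R)
      rw [h1, map_zero]

end

/-- torsion-free groups and domains of characteristic zero without invertible primes -/
theorem trivIdem_tf {R : Type u} [CommRing R] [IsDomain R] {G : Type v} [Group G] [CharZero R]
    (hR : ∀ p : ℕ, p.Prime → ¬ IsUnit (p : R)) (hG : ∀ g : G, IsOfFinOrder g → g = 1) :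
    TrivIdem R G := by
  have hchK : CharZero (FractionRing R) := by
    have : Function.Injective (algebraMap R (FractionRing R)) :=
      IsFractionRing.injective R (FractionRing R)
    exact charZero_of_injective_algebraMap this
  rintro e he ⟨r, m, hr⟩
  obtain ⟨q, hq⟩ := Pool.Agent.Y75.Dn.tr_rat hG (Matrix.of fun (_ _ : Fin 1) => e) (by
    ext1 i j
    rw [Matrix.mul_apply, Fin.sum_univ_one]
    exact he)
  rw [Pool.Agent.Y75.Dn.tr_apply, Fin.sum_univ_one] at hq
  have hq' : (q : FractionRing R) = e.coeff 1 := hq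
  obtain ⟨z, hz⟩ := int_of_rat hR (q + m) r (by
    push_cast
    rw [hq', hr])
  refine idem_int e he (z - m) ?_
  push_cast
  rw [← hz]
  push_cast
  rw [← hq']
  ring

end Pool.Agent.X267.CC
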