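import Mathlib
import Pool.Agent.X267.CC.Dom
import Pool.Agent.X263.Bk.Neg

set_option autoImplicit false
set_option linter.unusedSectionVars false

/-! The class in `K₀` of an idempotent matrix with a constant core. -/

namespace Pool.Agent.X267.CC

open Matrix Pool.Agent.Y75.NK Pool.Agent.X263.Bc CategoryTheory

section
variable {A : Type} [Ring A]

/-- the complementary idempotent -/
def cpl (e : Idem A) : Idem A where
  n := e.n
  e := 1 - e.e
  idem := compl_idem e.idem

/-- the identity matrix -/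
def idn (A : Type) [Ring A] (n : ℕ) : Idem A where
  n := n
  e := 1
  idem := mul_one _

theorem cols_rows {n : ℕ} (E : Matrix (Fin n) (Fin n) A) (he : E * E = E) :
    (fromCols E (1 - E)).submatrix (Equiv.refl (Fin n)) (finSumFinEquiv (m := n) (n := n)).symm *
      (fromRows E (1 - E)).submatrix (finSumFinEquiv (m := n) (n := n)).symm
        (Equiv.refl (Fin n)) = 1 := by
  have hc : (1 - E) * (1 - E) = 1 - E := compl_idem he
  rw [Matrix.submatrix_mul_equiv, Matrix.fromCols_mul_fromRows, he, hc, add_sub_cancel]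
  rfl

theorem cls_cpl (e : Idem A) : cls e + cls (cpl e) = cls (idn A e.n) := by
  rw [← cls_sum]
  apply cls_eq
  have he : e.e * e.e = e.e := e.idem
  have hc : (1 - e.e) * (1 - e.e) = 1 - e.e := compl_idem e.idem
  have h1 : e.e * (1 - e.e) = 0 := by rw [mul_sub, mul_one, he, sub_self]
  have h2 : (1 - e.e) * e.e = 0 := by rw [sub_mul, one_mul, he, sub_self]
  refine ⟨(fromRows e.e (1 - e.e)).submatrix finSumFinEquiv.symm id,
    (fromCols e.e (1 - e.e)).submatrix id finSumFinEquiv.symm, ?_, ?_⟩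
  · show (fromRows e.e (1 - e.e)).submatrix finSumFinEquiv.symm (Equiv.refl _) *
      (fromCols e.e (1 - e.e)).submatrix (Equiv.refl _) finSumFinEquiv.symm =
      (Matrix.fromBlocks e.e 0 0 (1 - e.e)).submatrix finSumFinEquiv.symm finSumFinEquiv.symm
    rw [Matrix.submatrix_mul_equiv, Matrix.fromRows_mul_fromCols, he, hc, h1, h2]
  · exact cols_rows e.e he

end

section
variable {R : Type} [CommRing R] {G : Type} [Group G]

theorem alg_cst : (algebraMap R (MonoidAlgebra R G)) = cst := by
  apply RingHom.ext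
  intro r
  rw [cst_def, MonoidAlgebra.coe_algebraMap]
  rfl

/-- a matrix equivalent to a constant idempotent -/
theorem cls_const {n : ℕ} {ι : Type} (_fι : Fintype ι) (_dι : DecidableEq ι)
    (E : Matrix (Fin n) (Fin n) (MonoidAlgebra R G)) (hE : E * E = E)
    (x : Matrix (Fin n) ι (MonoidAlgebra R G)) (y : Matrix ι (Fin n) (MonoidAlgebra R G))
    (D : Matrix ι ι R) (hD : D * D = D) (h1 : x * y = E)
    (h2 : y * x = D.map (algebraMap R (MonoidAlgebra R G))) :
    cls ⟨n, E, hE⟩ ∈ (K0.map (cst (R := R) (Γ := G))).range := by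
  let σ : Fin (Fintype.card ι) ≃ ι := (Fintype.equivFin ι).symm
  let d : Idem R := ⟨Fintype.card ι, D.submatrix σ σ, by
    rw [Matrix.submatrix_mul_equiv, hD]⟩
  refine ⟨cls d, ?_⟩
  rw [K0.map_cls]
  symm
  apply cls_eq
  refine ⟨x.submatrix (Equiv.refl _) σ, y.submatrix σ (Equiv.refl _), ?_, ?_⟩
  · show x.submatrix (Equiv.refl _) σ * y.submatrix σ (Equiv.refl _) = E
    rw [Matrix.submatrix_mul_equiv, h1]
    rfl
  · show y.submatrix σ (Equiv.refl _) * x.submatrix (Equiv.refl _) σ = (D.submatrix σ σ).map cst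
    rw [Matrix.submatrix_mul_equiv, h2, alg_cst]
    rfl

theorem inj_algR : Function.Injective (algebraMap R (MonoidAlgebra R G)) := by
  intro a b hab
  have h1 := congrArg (fun x : MonoidAlgebra R G => x.coeff 1) hab
  have h2 : ∀ z : R, (algebraMap R (MonoidAlgebra R G) z).coeff 1 = z := by
    intro z
    rw [MonoidAlgebra.coe_algebraMap]
    simp
  simp only [h2] at h1
  exact h1

theorem cls_core_aux [IsDomain R] (hK : TrivIdem R G) (n : ℕ)
    (E : Matrix (Fin n) (Fin n) (MonoidAlgebra R G)) (hE : E * E = E)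
    (p : Fin n → Prop) [DecidablePred p] [Unique {i // p i}]
    (g : Fin n → G) (c : Fin n → Fin n → R)
    (h : ∀ i j, ¬ p i → ¬ p j → E i j = MonoidAlgebra.single (g i * (g j)⁻¹) (c i j))
    (hg : g (default : {i // p i}) = 1)
    (hz : ∀ z : R, z ≠ 0 → z ≠ 1 →
      E (default : {i // p i}) (default : {i // p i}) ≠ MonoidAlgebra.single 1 z) :
    cls ⟨n, E, hE⟩ ∈ (K0.map (cst (R := R) (Γ := G))).range := by
  classical
  obtain ⟨P, Q, X, U, V, N, hPQ, hQP, hB, hX⟩ := conj_block E p g c h
  have hX0 : X default default = E (default : {i // p i}) (default : {i // p i}) := by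
    have h1 := hX default default
    rw [hg, inv_one, ← MonoidAlgebra.one_def, one_mul, mul_one] at h1
    exact h1
  set E' := fromBlocks X U V (1 - N.map (algebraMap R (MonoidAlgebra R G))) with hE'
  have hid : E' * E' = E' := by
    rw [← hB]
    calc Q * E * P * (Q * E * P) = Q * E * (P * Q) * (E * P) := by
          simp only [Matrix.mul_assoc]
      _ = Q * (E * E) * P := by rw [hPQ]; simp only [Matrix.mul_assoc, Matrix.mul_one]
      _ = Q * E * P := by rw [hE]
  have key : ∀ (F : Matrix (Fin n) (Fin n) (MonoidAlgebra R G)) (hF : F * F = F)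
      (F' : Matrix ({i // p i} ⊕ {i // ¬ p i}) ({i // p i} ⊕ {i // ¬ p i}) (MonoidAlgebra R G)),
      Q * F * P = F' → (∃ (A B : Matrix ({i // p i} ⊕ {i // ¬ p i})
        ({i // p i} ⊕ {i // ¬ p i}) (MonoidAlgebra R G))
        (D : Matrix ({i // p i} ⊕ {i // ¬ p i}) ({i // p i} ⊕ {i // ¬ p i}) R),
        D * D = D ∧ A * B = F' ∧ B * A = D.map (algebraMap R (MonoidAlgebra R G))) →
      cls ⟨n, F, hF⟩ ∈ (K0.map (cst (R := R) (Γ := G))).range := by
    rintro F hF F' hFF ⟨A, B, D, hD, h1, h2⟩
    refine cls_const inferInstance inferInstance F hF (P * A) (B * Q) D hD ?_ ?_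
    · calc P * A * (B * Q) = P * (A * B) * Q := by simp only [Matrix.mul_assoc]
        _ = (P * Q) * F * (P * Q) := by rw [h1, ← hFF]; simp only [Matrix.mul_assoc]
        _ = F := by rw [hPQ, Matrix.one_mul, Matrix.mul_one]
    · calc B * Q * (P * A) = B * (Q * P) * A := by simp only [Matrix.mul_assoc]
        _ = _ := by rw [hQP, Matrix.mul_one, h2]
  rcases trichD hK hid with ⟨b, hb⟩ | ⟨b, hb⟩ | ⟨z, hz0, hz1, hzX⟩
  · exact key E hE E' hB (nilp_const inj_algR hid b hb)
  · have h2' : (1 - E') * (1 - E') = 1 - E' := compl_idem hid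
    have h3 := nilp_const inj_algR (X := 1 - X) (U := -U) (V := -V)
      (N := 1 - N) (by rw [compl_blocks, h2']) b hb
    rw [compl_blocks] at h3
    have hB1 : Q * (1 - E) * P = 1 - E' := by
      rw [Matrix.mul_sub, Matrix.sub_mul, Matrix.mul_one, hQP, hB]
    obtain ⟨d, hd⟩ := key (1 - E) (compl_idem hE) (1 - E') hB1 h3
    have h4 := cls_cpl ⟨n, E, hE⟩
    have h5 : K0.map (cst (R := R) (Γ := G)) (cls (idn R n)) =
        cls (idn (MonoidAlgebra R G) n) := by
      rw [K0.map_cls]
      congr 1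
      unfold Idem.map idn
      congr 1
      exact (RingHom.mapMatrix (cst (R := R) (Γ := G))).map_one
    refine ⟨cls (idn R n) - d, ?_⟩
    rw [map_sub, h5, hd, sub_eq_iff_eq_add]
    exact h4.symm
  · exact absurd (hX0.symm.trans hzX) (hz z hz0 hz1)

theorem cls_core [IsDomain R] (hK : TrivIdem R G) (e : Idem (MonoidAlgebra R G))
    (i₀ : Fin e.n) (g : Fin e.n → G)
    (h : ∀ i j, i ≠ i₀ → j ≠ i₀ → ∃ r : R, e.e i j = MonoidAlgebra.single (g i * (g j)⁻¹) r)
    (hz : ∀ z : R, z ≠ 0 → z ≠ 1 → e.e i₀ i₀ ≠ MonoidAlgebra.single 1 z) :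
    cls e = K0.map cst (K0.map Pool.Agent.X263.Bc.aug (cls e)) := by
  classical
  choose! c hc using h
  have hd : ((default : {i // i = i₀}) : Fin e.n) = i₀ := (default : {i // i = i₀}).2
  obtain ⟨d, hd'⟩ := cls_core_aux hK e.n e.e e.idem (fun i => i = i₀)
    (Function.update g i₀ 1) c (by
      intro i j hi hj
      rw [Function.update_of_ne hi, Function.update_of_ne hj]
      exact hc i j hi hj) (by rw [hd, Function.update_self]) (by rw [hd]; exact hz)
  have hd2 : K0.map (cst (R := R) (Γ := G)) d = cls e := hd'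
  rw [← hd2]
  congr 1
  have h1 : (K0.map (Pool.Agent.X263.Bc.aug (R := R) (Γ := G))).comp
      (K0.map (cst (R := R) (Γ := G))) = AddMonoidHom.id (K0 R) := by
    rw [← K0.map_comp]
    have : (Pool.Agent.X263.Bc.aug (R := R) (Γ := G)).comp cst = RingHom.id R := by
      apply RingHom.ext
      intro r
      exact aug_cst r
    rw [this, K0.map_id]
  exact (DFunLike.congr_fun h1 d).symm

end

end Pool.Agent.X267.CC
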