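import Mathlib
import Pool.Agent.X267.CC.KZero

set_option autoImplicit false
set_option linter.unusedSectionVars false

/-! The classes in negative `K`-groups of idempotent matrices with a constant core. -/

namespace Pool.Agent.X267.CC

open Matrix Pool.Agent.Y75.NK Pool.Agent.X263.Bc Pool.Agent.X263.Bk CategoryTheory

theorem domZ (R : Type) [CommRing R] [IsDomain R] : ∀ m, IsDomain (MonoidAlgebra R (Zm m))
  | 0 => by
    have hs : Subsingleton (Zm 0) := inferInstanceAs (Subsingleton PUnit)
    let e : MonoidAlgebra R (Zm 0) ≃+* R := MonoidAlgebra.uniqueRingEquiv (Zm 0)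
    exact MulEquiv.isDomain R e.toMulEquiv
  | m + 1 => by
    have h1 := domZ R m
    let e : MonoidAlgebra R (Multiplicative ℤ × Zm m) ≃+*
        LaurentPolynomial (MonoidAlgebra R (Zm m)) :=
      (MonoidAlgebra.curryRingEquiv (R := R) (M := Multiplicative ℤ) (N := Zm m)).trans
        (AddMonoidAlgebra.toMultiplicative (MonoidAlgebra R (Zm m)) ℤ).symm
    exact MulEquiv.isDomain (LaurentPolynomial (MonoidAlgebra R (Zm m))) e.toMulEquiv

section
variable {R : Type} [CommRing R] (m : ℕ) (G : GrpCat.{0})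

theorem rho_coeff (x : MonoidAlgebra R ((EF m).obj G)) (y : (EF m).obj G) :
    ((rho R m G x).coeff (prj m G y)).coeff (EFi m G y).2 = x.coeff y := by
  classical
  induction x using MonoidAlgebra.induction_linear with
  | zero => rw [map_zero]; rfl
  | add a b ha hb =>
    rw [map_add, MonoidAlgebra.coeff_add, Finsupp.add_apply, MonoidAlgebra.coeff_add,
      Finsupp.add_apply, ha, hb, MonoidAlgebra.coeff_add, Finsupp.add_apply]
  | single w r =>
    rw [rho_single, MonoidAlgebra.coeff_single, MonoidAlgebra.coeff_single, Finsupp.single_apply,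
      Finsupp.single_apply]
    by_cases h1 : prj m G w = prj m G y
    · rw [if_pos h1, MonoidAlgebra.coeff_single, Finsupp.single_apply]
      by_cases h2 : (EFi m G w).2 = (EFi m G y).2
      · have h3 : w = y := by
          apply (EFi m G).injective
          apply Prod.ext
          · rw [EFi_fst, EFi_fst, h1]
          · exact h2
        rw [if_pos h2, if_pos h3]
      · rw [if_neg h2, if_neg (fun h => h2 (by rw [h]))]
    · rw [if_neg h1, if_neg (fun h => h1 (by rw [h]))]
      rfl

variable [IsDomain R]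

theorem cls_negC (hK : ∀ [IsDomain (MonoidAlgebra R (Zm m))], TrivIdem (MonoidAlgebra R (Zm m)) G)
    (e : Idem (MonoidAlgebra R ((EF m).obj G))) (i₀ : Fin e.n) (g : Fin e.n → G)
    (h : ∀ i j, i ≠ i₀ → j ≠ i₀ → ∀ x, (e.e i j).coeff x ≠ 0 → prj m G x = g i * (g j)⁻¹)
    (hz : (∀ x, (e.e i₀ i₀).coeff x ≠ 0 → prj m G x = 1) → e.e i₀ i₀ = 0 ∨ e.e i₀ i₀ = 1) :
    cls e = K0.map (MonoidAlgebra.mapDomainRingHom R ((EF m).map (tr G)).hom) (cls e) := by
  have h1 := domZ R m
  have h3 : cls (e.map (rho R m G).toRingHom) =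
      K0.map cst (K0.map Pool.Agent.X263.Bc.aug (cls (e.map (rho R m G).toRingHom))) := by
    apply cls_core hK (e.map (rho R m G).toRingHom) i₀ g
    · intro i j hi hj
      exact rho_supp m G (e.e i j) _ (h i j hi hj)
    · intro z hz0 hz1 hzz
      have hzz' : rho R m G (e.e i₀ i₀) = MonoidAlgebra.single 1 z := hzz
      have h4 : ∀ x, (e.e i₀ i₀).coeff x ≠ 0 → prj m G x = 1 := by
        classical
        intro x hx
        by_contra hne
        apply hx
        rw [← rho_coeff m G, hzz', MonoidAlgebra.coeff_single, Finsupp.single_apply,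
          if_neg (fun h => hne h.symm)]
        rfl
      rcases hz h4 with h5 | h5
      · rw [h5, map_zero] at hzz'
        apply hz0
        have h6 := congrArg (fun w : MonoidAlgebra (MonoidAlgebra R (Zm m)) G => w.coeff 1) hzz'
        simp only [MonoidAlgebra.coeff_single, Finsupp.single_eq_same] at h6
        exact h6.symm
      · rw [h5, map_one] at hzz'
        apply hz1
        have h6 := congrArg (fun w : MonoidAlgebra (MonoidAlgebra R (Zm m)) G => w.coeff 1) hzz'
        simp only [MonoidAlgebra.one_def, MonoidAlgebra.coeff_single, Finsupp.single_eq_same] at h6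
        exact h6.symm
  have h4 : K0.map cst (K0.map Pool.Agent.X263.Bc.aug (cls (e.map (rho R m G).toRingHom))) =
      K0.map (rho R m G).toRingHom
        (K0.map (MonoidAlgebra.mapDomainRingHom R ((EF m).map (tr G)).hom) (cls e)) := by
    rw [K0.map_cls, K0.map_cls, K0.map_cls, K0.map_cls]
    congr 1
    unfold Idem.map
    congr 1
    ext1 i j
    exact rho_tr m G (e.e i j)
  rw [h4, ← K0.map_cls] at h3
  have h5 := congrArg (K0.map (rho R m G).symm.toRingHom) h3
  rwa [map_inj_rho, map_inj_rho] at h5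

theorem kclass_negC
    (hK : ∀ [IsDomain (MonoidAlgebra R (Zm m))], TrivIdem (MonoidAlgebra R (Zm m)) G)
    (e : Idem (MonoidAlgebra R ((EF m).obj G))) (i₀ : Fin e.n) (g : Fin e.n → G)
    (h : ∀ i j, i ≠ i₀ → j ≠ i₀ → ∀ x, (e.e i j).coeff x ≠ 0 → prj m G x = g i * (g j)⁻¹)
    (hz : (∀ x, (e.e i₀ i₀).coeff x ≠ 0 → prj m G x = 1) → e.e i₀ i₀ = 0 ∨ e.e i₀ i₀ = 1) :
    kclass R m G e = ((Kneg m).map (RingCat.ofHom (cst (R := R) (Γ := G)))).hom
      (((Kneg m).map (RingCat.ofHom (Pool.Agent.X263.Bc.aug (R := R) (Γ := G)))).hom (kclass R m G e)) := by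
  have h1 : kclass R m G e = ((gr R ⋙ Kneg m).map (tr G)).hom (kclass R m G e) := by
    have h1 := cls_negC m G hK e i₀ g h hz
    have h5 := congrArg (fun z => z.hom (cls e)) ((kclT R m).naturality (tr G))
    unfold kclass
    exact (congrArg ((kclT R m).app G).hom h1).trans h5
  have h2 : (gr R).map (tr G) = RingCat.ofHom (Pool.Agent.X263.Bc.aug (R := R) (Γ := G)) ≫
      RingCat.ofHom (cst (R := R) (Γ := G)) := by
    apply RingCat.hom_ext
    apply RingHom.ext
    intro x
    change MonoidAlgebra.mapDomainRingHom R (1 : G →* G) x = cst (Pool.Agent.X263.Bc.aug x)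
    induction x using MonoidAlgebra.induction_linear with
    | zero => simp only [map_zero]
    | add x y hx hy => rw [map_add, map_add, map_add, hx, hy]
    | single x r =>
      rw [Pool.Agent.X263.Bc.aug_single]
      simp [cst_def]
  have h3 : (gr R ⋙ Kneg m).map (tr G) = (Kneg m).map (RingCat.ofHom (Pool.Agent.X263.Bc.aug (R := R) (Γ := G))) ≫
      (Kneg m).map (RingCat.ofHom (cst (R := R) (Γ := G))) := by
    rw [← (Kneg m).map_comp, ← h2]
    rfl
  rw [h3] at h1
  exact h1

end

/-- the condition on idempotents for torsion-free groups -/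
theorem trivIdem_lau {R : Type} [CommRing R] [IsDomain R] [CharZero R] (m : ℕ) {G : Type} [Group G]
    (hR : ∀ p : ℕ, p.Prime → ¬ IsUnit (p : R)) (hG : ∀ g : G, IsOfFinOrder g → g = 1)
    [IsDomain (MonoidAlgebra R (Zm m))] : TrivIdem (MonoidAlgebra R (Zm m)) G := by
  have hch : CharZero (MonoidAlgebra R (Zm m)) :=
    charZero_of_injective_algebraMap (inj_algR (R := R) (G := Zm m))
  refine trivIdem_tf ?_ hG
  intro p hp hu
  apply hR p hp
  have h1 := hu.map (Pool.Agent.X263.Bc.aug (R := R) (Γ := Zm m))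
  rwa [map_natCast] at h1

end Pool.Agent.X267.CC
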